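import Mathlib

/-!
Hadamard's determinant bound for sign matrices, and its equality case for Hadamard matrices.
-/

set_option autoImplicit false

open Matrix

namespace Pool.Agent.TH512.MaxDet

/-- Hadamard's inequality for sign matrices -/
theorem det_sq_le {n : ℕ} (hn : 0 < n) (A : Matrix (Fin n) (Fin n) ℝ)
    (hA : ∀ i j, A i j = 1 ∨ A i j = -1) : A.det ^ 2 ≤ (n : ℝ) ^ n := by
  have hM : (A * Aᵀ).PosSemidef := by
    have := Matrix.posSemidef_self_mul_conjTranspose A
    rwa [conjTranspose_eq_transpose_of_trivial] at this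
  have hdet : (A * Aᵀ).det = A.det ^ 2 := by rw [det_mul, det_transpose, sq]
  have htr : (A * Aᵀ).trace = (n : ℝ) * n := by
    have h1 : ∀ i, (A * Aᵀ) i i = n := by
      intro i
      rw [Matrix.mul_apply]
      have : ∀ j, A i j * Aᵀ j i = 1 := by
        intro j
        rw [Matrix.transpose_apply]
        rcases hA i j with h | h <;> rw [h] <;> norm_num
      rw [Finset.sum_congr rfl (fun j _ => this j)]
      simp
    simp [Matrix.trace, h1]
  have hE := hM.isHermitian
  have h1 : (A * Aᵀ).det = ∏ i, hE.eigenvalues i := by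
    have := hE.det_eq_prod_eigenvalues
    simpa using this
  have h2 : (A * Aᵀ).trace = ∑ i, hE.eigenvalues i := by
    have := hE.trace_eq_sum_eigenvalues
    simpa using this
  have hpos : ∀ i, 0 ≤ hE.eigenvalues i := fun i => hM.eigenvalues_nonneg i
  have hn' : (n : ℝ) ≠ 0 := by positivity
  have amgm := Real.geom_mean_le_arith_mean Finset.univ (fun _ : Fin n => (1 : ℝ)) hE.eigenvalues
    (by simp) (by simpa using hn) (fun i _ => hpos i)
  simp only [Real.rpow_one, one_mul, Finset.sum_const, Finset.card_univ, Fintype.card_fin,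
    nsmul_eq_mul, mul_one] at amgm
  rw [← h2, htr, ← h1, hdet, mul_div_assoc, div_self hn', mul_one] at amgm
  have h3 := Real.rpow_inv_natCast_pow (sq_nonneg A.det) hn.ne'
  rw [← h3]
  exact pow_le_pow_left₀ (Real.rpow_nonneg (sq_nonneg _) _) amgm n

/-- if there is a Hadamard matrix of even order `n > 0`, then the largest absolute value of the
determinant of a sign matrix of order `n` is `n ^ (n / 2)` -/
theorem greatest {n : ℕ} (hn : 0 < n) (he : Even n)
    (h : ∃ H : Matrix (Fin n) (Fin n) ℤ,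
      (∀ i j, H i j = 1 ∨ H i j = -1) ∧ H * Hᵀ = (n : ℤ) • (1 : Matrix (Fin n) (Fin n) ℤ)) :
    IsGreatest {x : ℝ | ∃ A : Matrix (Fin n) (Fin n) ℝ,
      (∀ i j, A i j = 1 ∨ A i j = -1) ∧ x = |A.det|} ((n : ℝ) ^ (n / 2)) := by
  have hsq : ((n : ℝ) ^ (n / 2)) ^ 2 = (n : ℝ) ^ n := by
    rw [← pow_mul, Nat.div_mul_cancel he.two_dvd]
  refine ⟨?_, ?_⟩
  · obtain ⟨H, h1, h2⟩ := h
    have hZ : H.det ^ 2 = (n : ℤ) ^ n := by
      have := congrArg Matrix.det h2
      rw [det_mul, det_transpose, det_smul, det_one, Fintype.card_fin, mul_one, ← sq] at this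
      exact this
    refine ⟨(Int.castRingHom ℝ).mapMatrix H, ?_, ?_⟩
    · intro i j
      rcases h1 i j with h | h
      · left; simp [h]
      · right; simp [h]
    · rw [← RingHom.map_det]
      have hR : ((H.det : ℤ) : ℝ) ^ 2 = (n : ℝ) ^ n := by exact_mod_cast hZ
      have : |((H.det : ℤ) : ℝ)| = (n : ℝ) ^ (n / 2) := by
        have h5 : |((H.det : ℤ) : ℝ)| ^ 2 = ((n : ℝ) ^ (n / 2)) ^ 2 := by rw [sq_abs, hR, hsq]
        exact (pow_left_inj₀ (abs_nonneg _) (by positivity) two_ne_zero).1 h5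
      exact this.symm
  · rintro x ⟨A, hA, rfl⟩
    have h4 := det_sq_le hn A hA
    rw [← hsq, ← sq_abs] at h4
    exact (pow_le_pow_iff_left₀ (abs_nonneg _) (by positivity) two_ne_zero).1 h4

end Pool.Agent.TH512.MaxDet
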