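import Mathlib

set_option autoImplicit false

namespace Pool.Agent.TH512.Poly11

/-- The values of a general affine functional on the eleven points. -/
noncomputable def val (φ : ℝ) (x : Fin 7 → ℝ) : Fin 11 → ℝ :=
  ![x 0, x 1, x 2, x 3, x 4, x 5, x 6,
    (φ * x 0 + x 1 - x 2 - x 4 + x 5) / φ,
    (x 0 + x 1 - x 3 - x 4 + 2 * x 6) / 2,
    (-x 1 + x 2 + x 3 + 2 * x 4 - x 6) / 2,
    (-x 0 + φ * x 2 + x 3 + x 5 - x 6) / φ]

/-- The eleven points of the 6-dimensional polytope (in the hyperplane of coordinate sum 1 in `ℝ⁷`). -/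
noncomputable def pts (φ : ℝ) : Fin 11 → Fin 7 → ℝ :=
  ![![1, 0, 0, 0, 0, 0, 0],
    ![0, 1, 0, 0, 0, 0, 0],
    ![0, 0, 1, 0, 0, 0, 0],
    ![0, 0, 0, 1, 0, 0, 0],
    ![0, 0, 0, 0, 1, 0, 0],
    ![0, 0, 0, 0, 0, 1, 0],
    ![0, 0, 0, 0, 0, 0, 1],
    ![1, 1 / φ, -(1 / φ), 0, -(1 / φ), 1 / φ, 0],
    ![1 / 2, 1 / 2, 0, -(1 / 2), -(1 / 2), 0, 1],
    ![0, -(1 / 2), 1 / 2, 1 / 2, 1, 0, -(1 / 2)],
    ![-(1 / φ), 0, 1, 1 / φ, 0, 1 / φ, -(1 / φ)]]

lemma val_eq (φ : ℝ) (hφ : φ ≠ 0) (a : Fin 7 → ℝ) (c : ℝ) (i : Fin 11) :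
    c - ∑ k, a k * pts φ i k = val φ (fun k => c - a k) i := by
  fin_cases i <;> simp [pts, val, Fin.sum_univ_succ] <;> field_simp <;> ring

/-- The final elimination: the rational numbers in the twelve dependencies force a rational root
of `X² = X + 1`. -/
lemma final_alg (a7 a8 a10 b7 b8 b9 c7 c9 c10 d8 d9 d10 : ℚ)
    (k0 k3 l1 l3 m1 m2 n0 n2 n3 o0 o1 o2 : ℚ)
    (hk0 : 0 < k0) (hk3 : 0 < k3) (hl1 : 0 < l1) (hl3 : 0 < l3) (hm1 : 0 < m1) (hm2 : 0 < m2)
    (hn0 : 0 < n0) (hn2 : 0 < n2) (ho0 : 0 < o0) (ho2 : 0 < o2)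
    (ha10 : a10 < 0) (hb7 : b7 ≠ 0) (hb8 : b8 ≠ 0) (hb9 : b9 ≠ 0)
    (e1 : k0 * a8 + k3 * d8 = 0) (e2 : k0 * a10 + k3 * d10 = 0)
    (e3 : l1 * b8 + l3 * d8 = 0) (e4 : l1 * b9 + l3 * d9 = 0)
    (e5 : m1 * b7 + m2 * c7 = 0) (e6 : m1 * b9 + m2 * c9 = 0)
    (e7 : n0 * a7 + n2 * c7 = 0) (e8 : n2 * c9 + n3 * d9 = 0)
    (e9 : n0 * a10 + n2 * c10 + n3 * d10 = 0)
    (e10 : o0 * a7 + o1 * b7 + o2 * c7 = 0) (e11 : o0 * a8 + o1 * b8 = 0)
    (e12 : o0 * a10 + o2 * c10 = 0) : ∃ X : ℚ, X ^ 2 = X + 1 := by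
  have ha10' : a10 ≠ 0 := ha10.ne
  -- solve everything
  have d8e : d8 = -(l1 / l3) * b8 := by field_simp; linarith
  have a8e : a8 = (l1 / l3) * (k3 / k0) * b8 := by
    rw [d8e] at e1; field_simp at e1 ⊢; linarith
  have d10e : d10 = -(k0 / k3) * a10 := by field_simp; linarith
  have d9e : d9 = -(l1 / l3) * b9 := by field_simp; linarith
  have c7e : c7 = -(m1 / m2) * b7 := by field_simp; linarith
  have c9e : c9 = -(m1 / m2) * b9 := by field_simp; linarith
  have a7e : a7 = (n2 / n0) * (m1 / m2) * b7 := by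
    rw [c7e] at e7; field_simp at e7 ⊢; linarith
  have o1e : o1 = -o0 * (l1 / l3) * (k3 / k0) := by
    rw [a8e] at e11
    have : b8 * (o0 * (l1 / l3) * (k3 / k0) + o1) = 0 := by linarith
    rcases mul_eq_zero.1 this with h | h
    · exact absurd h hb8
    · linarith
  have n3e : n3 = -n2 * (m1 / m2) * (l3 / l1) := by
    rw [c9e, d9e] at e8
    have : b9 * (n2 * (m1 / m2) + n3 * (l1 / l3)) = 0 := by linarith
    rcases mul_eq_zero.1 this with h | h
    · exact absurd h hb9
    · field_simp at h ⊢; linarith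
  have c10e : c10 = -(o0 / o2) * a10 := by field_simp; linarith
  have r1 : o0 * ((n2 / n0) * (m1 / m2)) = o0 * (l1 / l3) * (k3 / k0) + o2 * (m1 / m2) := by
    rw [a7e, c7e, o1e] at e10
    have : b7 * (o0 * ((n2 / n0) * (m1 / m2)) - o0 * (l1 / l3) * (k3 / k0) - o2 * (m1 / m2)) = 0 := by
      linarith
    rcases mul_eq_zero.1 this with h | h
    · exact absurd h hb7
    · linarith
  have r2 : n0 - n2 * (o0 / o2) + n2 * (m1 / m2) * (l3 / l1) * (k0 / k3) = 0 := by
    rw [c10e, d10e, n3e] at e9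
    have : a10 * (n0 - n2 * (o0 / o2) + n2 * (m1 / m2) * (l3 / l1) * (k0 / k3)) = 0 := by
      linarith
    rcases mul_eq_zero.1 this with h | h
    · exact absurd h ha10'
    · exact h
  refine ⟨(n2 / n0) * ((m1 / m2) * (l3 / l1) * (k0 / k3)), ?_⟩
  -- s := μ κ / λ
  set s : ℚ := (m1 / m2) * (l3 / l1) * (k0 / k3) with hs
  have hs0 : 0 < s := by positivity
  set n : ℚ := n2 / n0 with hn
  set o : ℚ := o2 / o0 with ho
  have ho' : 0 < o := by positivity
  have q1 : n * s = 1 + o * s := by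
    have : n * (m1 / m2) = (l1 / l3) * (k3 / k0) + o * (m1 / m2) := by
      rw [ho]; field_simp at r1 ⊢; linarith
    have h2 : s = (m1 / m2) * ((l3 / l1) * (k0 / k3)) := by rw [hs]; ring
    have h3 : (l1 / l3) * (k3 / k0) * ((l3 / l1) * (k0 / k3)) = 1 := by field_simp
    calc n * s = (n * (m1 / m2)) * ((l3 / l1) * (k0 / k3)) := by rw [h2]; ring
      _ = ((l1 / l3) * (k3 / k0) + o * (m1 / m2)) * ((l3 / l1) * (k0 / k3)) := by rw [this]
      _ = (l1 / l3) * (k3 / k0) * ((l3 / l1) * (k0 / k3)) + o * ((m1 / m2) * ((l3 / l1) * (k0 / k3))) := by ring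
      _ = 1 + o * s := by rw [h3, ← h2]
  have q2 : o - n + n * o * s = 0 := by
    have h4 : n0 - n2 * (o0 / o2) + n2 * s = 0 := by rw [hs]; linarith
    have h5 : n2 = n * n0 := by rw [hn]; field_simp
    have h6 : o0 / o2 = 1 / o := by rw [ho]; field_simp
    rw [h5, h6] at h4
    have h7 : n0 * (1 - n / o + n * s) = 0 := by
      have : n0 * (1 - n / o + n * s) = n0 - n * n0 * (1 / o) + n * n0 * s := by ring
      rw [this]; exact h4
    rcases mul_eq_zero.1 h7 with h | h
    · exact absurd h hn0.ne'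
    · field_simp at h
      linarith
  -- X = n s ; o s = X - 1 ; (n - o) s = 1 ; n o s ^ 2 = 1
  have q4 : n * o * s = n - o := by linarith
  have q3 : n * o * s * s = 1 := by
    rw [q4]
    have : (n - o) * s = n * s - o * s := by ring
    rw [this, q1]
    ring
  have q5 : (n * s) ^ 2 = n * s * (1 + o * s) := by rw [← q1]; ring
  rw [q5]
  have q6 : n * s * (1 + o * s) = n * s + n * o * s * s := by ring
  rw [q6, q3]

/-- Linear combinations stay in the submodule. -/
lemma comb2 (A : Submodule ℚ (Fin 11 → ℚ)) {u v : Fin 11 → ℚ} (hu : u ∈ A) (hv : v ∈ A) (α β : ℚ) :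
    α • u + β • v ∈ A := A.add_mem (A.smul_mem _ hu) (A.smul_mem _ hv)

theorem core_alg (A : Submodule ℚ (Fin 11 → ℚ))
    (L : ∀ v ∈ A, (∀ i ∉ ({2, 8, 9, 10} : Finset (Fin 11)), v i = 0) → v = 0)
    (G : ∀ T : Finset (Fin 11), T ∈ ({{1, 4, 9}, {5, 7, 10}, {3, 6, 8}, {0, 5, 7, 8}, {2, 5, 9, 10},
      {0, 2, 6, 8}, {3, 6, 9, 10}, {0, 2, 4, 9}, {1, 4, 7, 8}, {0, 3, 7, 9}, {1, 3, 7, 10},
      {1, 2, 8, 10}} : Finset (Finset (Fin 11))) →
      ∃ g ∈ A, (∀ i ∈ T, 0 < g i) ∧ ∀ i ∉ T, g i = 0) : ∃ X : ℚ, X ^ 2 = X + 1 := by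
  classical
  -- the three short dependencies
  obtain ⟨p, hp, pp, pz⟩ := G {1, 4, 9} (by simp)
  obtain ⟨q, hq, qp, qz⟩ := G {5, 7, 10} (by simp)
  obtain ⟨r, hr, rp, rz⟩ := G {3, 6, 8} (by simp)
  have p1 : 0 < p 1 := pp 1 (by decide)
  have p4 : 0 < p 4 := pp 4 (by decide)
  have p9 : 0 < p 9 := pp 9 (by decide)
  have q5 : 0 < q 5 := qp 5 (by decide)
  have q7 : 0 < q 7 := qp 7 (by decide)
  have q10 : 0 < q 10 := qp 10 (by decide)
  have r3 : 0 < r 3 := rp 3 (by decide)
  have r6 : 0 < r 6 := rp 6 (by decide)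
  have r8 : 0 < r 8 := rp 8 (by decide)
  -- N2 : support {2,7,9,10}
  obtain ⟨c7, c9, c10, hc7, hc9, hN2⟩ : ∃ c7 c9 c10 : ℚ, c7 < 0 ∧ 0 < c9 ∧
      (![0, 0, 1, 0, 0, 0, 0, c7, 0, c9, c10] : Fin 11 → ℚ) ∈ A := by
    obtain ⟨g, hg, gp, gz⟩ := G {2, 5, 9, 10} (by simp)
    have g2 : 0 < g 2 := gp 2 (by decide)
    have g5 : 0 < g 5 := gp 5 (by decide)
    have g9 : 0 < g 9 := gp 9 (by decide)
    refine ⟨-(g 5 / q 5) * q 7 / g 2, g 9 / g 2, (g 10 - (g 5 / q 5) * q 10) / g 2, ?_, by positivity, ?_⟩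
    · have : 0 < (g 5 / q 5) * q 7 / g 2 := by positivity
      have h2 : -(g 5 / q 5) * q 7 / g 2 = -((g 5 / q 5) * q 7 / g 2) := by ring
      rw [h2]; linarith
    · have := comb2 A hg hq (1 / g 2) (-(g 5 / q 5) / g 2)
      convert this using 1
      funext i
      have z0 := gz 0 (by decide)
      have z1 := gz 1 (by decide)
      have z3 := gz 3 (by decide)
      have z4 := gz 4 (by decide)
      have z6 := gz 6 (by decide)
      have z7 := gz 7 (by decide)
      have z8 := gz 8 (by decide)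
      have y0 := qz 0 (by decide)
      have y1 := qz 1 (by decide)
      have y2 := qz 2 (by decide)
      have y3 := qz 3 (by decide)
      have y4 := qz 4 (by decide)
      have y6 := qz 6 (by decide)
      have y8 := qz 8 (by decide)
      have y9 := qz 9 (by decide)
      fin_cases i <;> simp [z0, z1, z3, z4, z6, z7, z8, y0, y1, y2, y3, y4, y6, y8, y9] <;>
        field_simp <;> ring
  -- the second independence statement
  have L' : ∀ v ∈ A, (∀ i ∉ ({7, 8, 9, 10} : Finset (Fin 11)), v i = 0) → v = 0 := by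
    intro v hv hz
    have hc7' : c7 ≠ 0 := hc7.ne
    have h0 := hz 0 (by decide)
    have h1 := hz 1 (by decide)
    have h2 := hz 2 (by decide)
    have h3 := hz 3 (by decide)
    have h4 := hz 4 (by decide)
    have h5 := hz 5 (by decide)
    have h6 := hz 6 (by decide)
    have hw := comb2 A hv hN2 1 (-(v 7 / c7))
    have hw0 := L _ hw (by
      intro i hi
      fin_cases i <;> first
        | (exact absurd (by decide) hi)
        | (simp [h0, h1, h3, h4, h5, h6]; try (field_simp; try ring)))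
    have e2 := congrFun hw0 2
    simp [h2, hc7'] at e2
    apply L v hv
    intro i hi
    by_cases h7 : i = 7
    · rw [h7]; exact e2
    · apply hz
      intro h
      simp only [Finset.mem_insert, Finset.mem_singleton] at h hi
      omega
  -- N0 : support {0,7,8,10}
  obtain ⟨a7, a8, a10, ha8, ha10, hN0⟩ : ∃ a7 a8 a10 : ℚ, 0 < a8 ∧ a10 < 0 ∧
      (![1, 0, 0, 0, 0, 0, 0, a7, a8, 0, a10] : Fin 11 → ℚ) ∈ A := by
    obtain ⟨g, hg, gp, gz⟩ := G {0, 5, 7, 8} (by simp)
    have g0 : 0 < g 0 := gp 0 (by decide)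
    have g5 : 0 < g 5 := gp 5 (by decide)
    have g8 : 0 < g 8 := gp 8 (by decide)
    refine ⟨(g 7 - (g 5 / q 5) * q 7) / g 0, g 8 / g 0, -(g 5 / q 5) * q 10 / g 0, by positivity, ?_, ?_⟩
    · have : 0 < (g 5 / q 5) * q 10 / g 0 := by positivity
      have h2 : -(g 5 / q 5) * q 10 / g 0 = -((g 5 / q 5) * q 10 / g 0) := by ring
      rw [h2]; linarith
    · have := comb2 A hg hq (1 / g 0) (-(g 5 / q 5) / g 0)
      convert this using 1
      funext i
      have z1 := gz 1 (by decide)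
      have z2 := gz 2 (by decide)
      have z3 := gz 3 (by decide)
      have z4 := gz 4 (by decide)
      have z6 := gz 6 (by decide)
      have z9 := gz 9 (by decide)
      have z10 := gz 10 (by decide)
      have y0 := qz 0 (by decide)
      have y1 := qz 1 (by decide)
      have y2 := qz 2 (by decide)
      have y3 := qz 3 (by decide)
      have y4 := qz 4 (by decide)
      have y6 := qz 6 (by decide)
      have y8 := qz 8 (by decide)
      have y9 := qz 9 (by decide)
      fin_cases i <;> simp [z1, z2, z3, z4, z6, z9, z10, y0, y1, y2, y3, y4, y6, y8, y9] <;>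
        field_simp <;> ring
  -- N1 : support {1,7,8,9}
  obtain ⟨b7, b8, b9, hb7, hb8, hb9, hN1⟩ : ∃ b7 b8 b9 : ℚ, b7 ≠ 0 ∧ b8 ≠ 0 ∧ b9 ≠ 0 ∧
      (![0, 1, 0, 0, 0, 0, 0, b7, b8, b9, 0] : Fin 11 → ℚ) ∈ A := by
    obtain ⟨g, hg, gp, gz⟩ := G {1, 4, 7, 8} (by simp)
    have g1 : 0 < g 1 := gp 1 (by decide)
    have g4 : 0 < g 4 := gp 4 (by decide)
    have g7 : 0 < g 7 := gp 7 (by decide)
    have g8 : 0 < g 8 := gp 8 (by decide)
    have z0 := gz 0 (by decide)
    have z2 := gz 2 (by decide)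
    have z3 := gz 3 (by decide)
    have z5 := gz 5 (by decide)
    have z6 := gz 6 (by decide)
    have z9 := gz 9 (by decide)
    have z10 := gz 10 (by decide)
    have y0 := pz 0 (by decide)
    have y2 := pz 2 (by decide)
    have y3 := pz 3 (by decide)
    have y5 := pz 5 (by decide)
    have y6 := pz 6 (by decide)
    have y7 := pz 7 (by decide)
    have y8 := pz 8 (by decide)
    have y10 := pz 10 (by decide)
    have hw : (![0, g 1 - (g 4 / p 4) * p 1, 0, 0, 0, 0, 0, g 7, g 8, -(g 4 / p 4) * p 9, 0] :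
        Fin 11 → ℚ) ∈ A := by
      have := comb2 A hg hp 1 (-(g 4 / p 4))
      convert this using 1
      funext i
      fin_cases i <;> simp [z0, z2, z3, z5, z6, z9, z10, y0, y2, y3, y5, y6, y7, y8, y10] <;>
        field_simp <;> ring
    have hu : g 1 - (g 4 / p 4) * p 1 ≠ 0 := by
      intro hu
      have h0 := L' _ hw (by
        intro i hi
        fin_cases i <;> first
          | (exact absurd (by decide) hi)
          | simp [hu])
      have := congrFun h0 7
      simp at this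
      exact g7.ne' this
    set u := g 1 - (g 4 / p 4) * p 1 with hu'
    refine ⟨g 7 / u, g 8 / u, -(g 4 / p 4) * p 9 / u, div_ne_zero g7.ne' hu, div_ne_zero g8.ne' hu,
      div_ne_zero (mul_ne_zero (neg_ne_zero.2 (div_ne_zero g4.ne' p4.ne')) p9.ne') hu, ?_⟩
    have := A.smul_mem (1 / u) hw
    convert this using 1
    funext i
    fin_cases i <;> simp [hu] <;> field_simp
  -- N3 : support {3,8,9,10}
  obtain ⟨d8, d9, d10, hN3⟩ : ∃ d8 d9 d10 : ℚ,
      (![0, 0, 0, 1, 0, 0, 0, 0, d8, d9, d10] : Fin 11 → ℚ) ∈ A := by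
    obtain ⟨g, hg, gp, gz⟩ := G {3, 6, 9, 10} (by simp)
    have g3 : 0 < g 3 := gp 3 (by decide)
    have g6 : 0 < g 6 := gp 6 (by decide)
    have g9 : 0 < g 9 := gp 9 (by decide)
    have g10 : 0 < g 10 := gp 10 (by decide)
    have z0 := gz 0 (by decide)
    have z1 := gz 1 (by decide)
    have z2 := gz 2 (by decide)
    have z4 := gz 4 (by decide)
    have z5 := gz 5 (by decide)
    have z7 := gz 7 (by decide)
    have z8 := gz 8 (by decide)
    have y0 := rz 0 (by decide)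
    have y1 := rz 1 (by decide)
    have y2 := rz 2 (by decide)
    have y4 := rz 4 (by decide)
    have y5 := rz 5 (by decide)
    have y7 := rz 7 (by decide)
    have y9 := rz 9 (by decide)
    have y10 := rz 10 (by decide)
    have hw : (![0, 0, 0, g 3 - (g 6 / r 6) * r 3, 0, 0, 0, 0, -(g 6 / r 6) * r 8, g 9, g 10] :
        Fin 11 → ℚ) ∈ A := by
      have := comb2 A hg hr 1 (-(g 6 / r 6))
      convert this using 1
      funext i
      fin_cases i <;> simp [z0, z1, z2, z4, z5, z7, z8, y0, y1, y2, y4, y5, y7, y9, y10] <;>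
        field_simp <;> ring
    have hu : g 3 - (g 6 / r 6) * r 3 ≠ 0 := by
      intro hu
      have h0 := L' _ hw (by
        intro i hi
        fin_cases i <;> first
          | (exact absurd (by decide) hi)
          | simp [hu])
      have := congrFun h0 9
      simp at this
      exact g9.ne' this
    set u := g 3 - (g 6 / r 6) * r 3 with hu'
    refine ⟨-(g 6 / r 6) * r 8 / u, g 9 / u, g 10 / u, ?_⟩
    have := A.smul_mem (1 / u) hw
    convert this using 1
    funext i
    fin_cases i <;> simp [hu] <;> field_simp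
  -- reduction modulo the normal vectors
  have red : ∀ v ∈ A, v 4 = 0 → v 5 = 0 → v 6 = 0 →
      v 7 = v 0 * a7 + v 1 * b7 + v 2 * c7 ∧
      v 8 = v 0 * a8 + v 1 * b8 + v 3 * d8 ∧
      v 9 = v 1 * b9 + v 2 * c9 + v 3 * d9 ∧
      v 10 = v 0 * a10 + v 2 * c10 + v 3 * d10 := by
    intro v hv h4 h5 h6
    have hw := A.sub_mem hv (A.add_mem (comb2 A hN0 hN1 (v 0) (v 1)) (comb2 A hN2 hN3 (v 2) (v 3)))
    have h0 := L' _ hw (by
        intro i hi
        fin_cases i <;> first
          | (exact absurd (by decide) hi)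
          | simp [h4, h5, h6])
    have k7 := congrFun h0 7
    have k8 := congrFun h0 8
    have k9 := congrFun h0 9
    have k10 := congrFun h0 10
    simp at k7 k8 k9 k10
    refine ⟨by linarith, by linarith, by linarith, by linarith⟩
  -- the five remaining dependencies
  obtain ⟨k, hk, kp, kz⟩ := G {0, 3, 7, 9} (by simp)
  obtain ⟨l, hl, lp, lz⟩ := G {1, 3, 7, 10} (by simp)
  obtain ⟨m, hm, mp, mz⟩ := G {1, 2, 8, 10} (by simp)
  have kR := red k hk (kz 4 (by decide)) (kz 5 (by decide)) (kz 6 (by decide))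
  have lR := red l hl (lz 4 (by decide)) (lz 5 (by decide)) (lz 6 (by decide))
  have mR := red m hm (mz 4 (by decide)) (mz 5 (by decide)) (mz 6 (by decide))
  rw [kz 1 (by decide), kz 2 (by decide), kz 8 (by decide), kz 10 (by decide)] at kR
  rw [lz 0 (by decide), lz 2 (by decide), lz 8 (by decide), lz 9 (by decide)] at lR
  rw [mz 0 (by decide), mz 3 (by decide), mz 7 (by decide), mz 9 (by decide)] at mR
  -- {0,2,8,3}
  obtain ⟨n0, n2, n3, hn0, hn2, nR⟩ : ∃ n0 n2 n3 : ℚ, 0 < n0 ∧ 0 < n2 ∧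
      (n0 * a7 + n2 * c7 = 0 ∧ n2 * c9 + n3 * d9 = 0 ∧ n0 * a10 + n2 * c10 + n3 * d10 = 0) := by
    obtain ⟨g, hg, gp, gz⟩ := G {0, 2, 6, 8} (by simp)
    have g0 : 0 < g 0 := gp 0 (by decide)
    have g2 : 0 < g 2 := gp 2 (by decide)
    have g6 : 0 < g 6 := gp 6 (by decide)
    have hw := comb2 A hg hr 1 (-(g 6 / r 6))
    have z1 := gz 1 (by decide)
    have z3 := gz 3 (by decide)
    have z4 := gz 4 (by decide)
    have z5 := gz 5 (by decide)
    have z7 := gz 7 (by decide)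
    have z9 := gz 9 (by decide)
    have z10 := gz 10 (by decide)
    have y0 := rz 0 (by decide)
    have y1 := rz 1 (by decide)
    have y2 := rz 2 (by decide)
    have y4 := rz 4 (by decide)
    have y5 := rz 5 (by decide)
    have y7 := rz 7 (by decide)
    have y9 := rz 9 (by decide)
    have y10 := rz 10 (by decide)
    have R := red _ hw (by simp [z4, y4]) (by simp [z5, y5]) (by simp; field_simp; ring)
    simp [z1, z3, z7, z9, z10, y0, y1, y2, y7, y9, y10] at R
    refine ⟨g 0, g 2, -(g 6 / r 6 * r 3), g0, g2, ?_, ?_, ?_⟩ <;> linarith [R.1, R.2.1, R.2.2.1, R.2.2.2]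
  -- {0,2,9,1}
  obtain ⟨o0, o1, o2, ho0, ho2, oR⟩ : ∃ o0 o1 o2 : ℚ, 0 < o0 ∧ 0 < o2 ∧
      (o0 * a7 + o1 * b7 + o2 * c7 = 0 ∧ o0 * a8 + o1 * b8 = 0 ∧ o0 * a10 + o2 * c10 = 0) := by
    obtain ⟨g, hg, gp, gz⟩ := G {0, 2, 4, 9} (by simp)
    have g0 : 0 < g 0 := gp 0 (by decide)
    have g2 : 0 < g 2 := gp 2 (by decide)
    have g4 : 0 < g 4 := gp 4 (by decide)
    have hw := comb2 A hg hp 1 (-(g 4 / p 4))
    have z1 := gz 1 (by decide)
    have z3 := gz 3 (by decide)
    have z5 := gz 5 (by decide)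
    have z6 := gz 6 (by decide)
    have z7 := gz 7 (by decide)
    have z8 := gz 8 (by decide)
    have z10 := gz 10 (by decide)
    have y0 := pz 0 (by decide)
    have y2 := pz 2 (by decide)
    have y3 := pz 3 (by decide)
    have y5 := pz 5 (by decide)
    have y6 := pz 6 (by decide)
    have y7 := pz 7 (by decide)
    have y8 := pz 8 (by decide)
    have y10 := pz 10 (by decide)
    have R := red _ hw (by simp; field_simp; ring) (by simp [z5, y5]) (by simp [z6, y6])
    simp [z1, z3, z7, z8, z10, y0, y2, y3, y7, y8, y10] at R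
    refine ⟨g 0, -(g 4 / p 4 * p 1), g 2, g0, g2, ?_, ?_, ?_⟩ <;> linarith [R.1, R.2.1, R.2.2.1, R.2.2.2]
  exact final_alg a7 a8 a10 b7 b8 b9 c7 c9 c10 d8 d9 d10 (k 0) (k 3) (l 1) (l 3) (m 1) (m 2)
    n0 n2 n3 o0 o1 o2 (kp 0 (by decide)) (kp 3 (by decide)) (lp 1 (by decide)) (lp 3 (by decide))
    (mp 1 (by decide)) (mp 2 (by decide)) hn0 hn2 ho0 ho2 ha10 hb7 hb8 hb9
    (by linarith [kR.2.1]) (by linarith [kR.2.2.2]) (by linarith [lR.2.1]) (by linarith [lR.2.2.1])
    (by linarith [mR.1]) (by linarith [mR.2.2.1]) nR.1 nR.2.1 nR.2.2 oR.1 oR.2.1 oR.2.2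

/-- The independence statement, from the fact that nonnegative elements of `A` have the same
supports as nonnegative functionals on the eleven points. -/
lemma indep (φ : ℝ) (hφ : φ ^ 2 = φ + 1) (h1 : 1 < φ) (A : Submodule ℚ (Fin 11 → ℚ))
    (K : ∀ g ∈ A, (∀ i, 0 ≤ g i) →
      ∃ x : Fin 7 → ℝ, ∀ i, 0 ≤ val φ x i ∧ (g i = 0 ↔ val φ x i = 0))
    (F : Fin 11 → ℚ) (hF : F ∈ A) (Fp : ∀ i ∈ ({0, 2, 8, 9, 10} : Finset (Fin 11)), 0 < F i)
    (Fz : ∀ i ∉ ({0, 2, 8, 9, 10} : Finset (Fin 11)), F i = 0) :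
    ∀ v ∈ A, (∀ i ∉ ({2, 8, 9, 10} : Finset (Fin 11)), v i = 0) → v = 0 := by
  intro v hv hz
  by_contra hne
  have hφ0 : φ ≠ 0 := by linarith
  have key : ∀ v ∈ A, (∀ i ∉ ({2, 8, 9, 10} : Finset (Fin 11)), v i = 0) → (∃ i, 0 < v i) → False := by
    intro v hv hz ⟨j, hj⟩
    obtain ⟨i0, hi0, hmin⟩ := Finset.exists_min_image (Finset.univ.filter (fun i => 0 < v i))
      (fun i => F i / v i) ⟨j, by simpa using hj⟩
    have hvi0 : 0 < v i0 := by simpa using hi0
    have hi0' : i0 ∈ ({2, 8, 9, 10} : Finset (Fin 11)) := by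
      by_contra h
      rw [hz i0 h] at hvi0
      exact lt_irrefl _ hvi0
    have hi0'' : i0 ∈ ({0, 2, 8, 9, 10} : Finset (Fin 11)) := by
      simp only [Finset.mem_insert, Finset.mem_singleton] at hi0' ⊢
      tauto
    have hFi0 := Fp i0 hi0''
    set t : ℚ := F i0 / v i0 with ht
    have ht0 : 0 < t := div_pos hFi0 hvi0
    have hFnn : ∀ i, 0 ≤ F i := by
      intro i
      by_cases h : i ∈ ({0, 2, 8, 9, 10} : Finset (Fin 11))
      · exact (Fp i h).le
      · exact (Fz i h).ge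
    have hw : F - t • v ∈ A := A.sub_mem hF (A.smul_mem t hv)
    obtain ⟨x, hx⟩ := K _ hw (by
      intro i
      simp only [Pi.sub_apply, Pi.smul_apply, smul_eq_mul]
      rcases le_or_gt (v i) 0 with h | h
      · have : t * v i ≤ 0 := mul_nonpos_of_nonneg_of_nonpos ht0.le h
        linarith [hFnn i]
      · have := hmin i (by simpa using h)
        rw [le_div_iff₀ h] at this
        linarith)
    have zero_of : ∀ i, F i = 0 → v i = 0 → val φ x i = 0 := by
      intro i h h'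
      apply (hx i).2.1
      simp [h, h']
    have x1 := zero_of 1 (Fz 1 (by decide)) (hz 1 (by decide))
    have x3 := zero_of 3 (Fz 3 (by decide)) (hz 3 (by decide))
    have x4 := zero_of 4 (Fz 4 (by decide)) (hz 4 (by decide))
    have x5 := zero_of 5 (Fz 5 (by decide)) (hz 5 (by decide))
    have x6 := zero_of 6 (Fz 6 (by decide)) (hz 6 (by decide))
    have x7 := zero_of 7 (Fz 7 (by decide)) (hz 7 (by decide))
    have x0 : 0 < x 0 := by
      have h0 := (hx 0).1
      have h0' := (hx 0).2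
      simp only [Pi.sub_apply, Pi.smul_apply, smul_eq_mul, hz 0 (by decide), mul_zero, sub_zero] at h0'
      have hv0 : val φ x 0 = x 0 := rfl
      rw [hv0] at h0 h0'
      rcases h0.lt_or_eq with h | h
      · exact h
      · exact absurd (h0'.2 h.symm) (Fp 0 (by decide)).ne'
    have y1 : x 1 = 0 := x1
    have y3 : x 3 = 0 := x3
    have y4 : x 4 = 0 := x4
    have y5 : x 5 = 0 := x5
    have y6 : x 6 = 0 := x6
    have y2 : x 2 = φ * x 0 := by
      have : (φ * x 0 + x 1 - x 2 - x 4 + x 5) / φ = 0 := x7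
      rw [div_eq_zero_iff] at this
      rcases this with h | h
      · linarith
      · exact absurd h hφ0
    have hz0 : val φ x i0 = 0 := by
      apply (hx i0).2.1
      simp only [Pi.sub_apply, Pi.smul_apply, smul_eq_mul, ht]
      field_simp
      ring
    have hφx : 0 < φ * x 0 := mul_pos (by linarith) x0
    simp only [Finset.mem_insert, Finset.mem_singleton] at hi0'
    rcases hi0' with rfl | rfl | rfl | rfl
    · have : x 2 = 0 := hz0
      linarith
    · have : (x 0 + x 1 - x 3 - x 4 + 2 * x 6) / 2 = 0 := hz0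
      linarith
    · have : (-x 1 + x 2 + x 3 + 2 * x 4 - x 6) / 2 = 0 := hz0
      linarith
    · have : (-x 0 + φ * x 2 + x 3 + x 5 - x 6) / φ = 0 := hz0
      rw [div_eq_zero_iff] at this
      rcases this with h | h
      · rw [y2, y3, y5, y6] at h
        have : φ * (φ * x 0) = φ ^ 2 * x 0 := by ring
        rw [this, hφ] at h
        linarith
      · exact hφ0 h
  obtain ⟨j, hj⟩ := Function.ne_iff.1 hne
  simp only [Pi.zero_apply] at hj
  rcases lt_or_gt_of_ne hj with h | h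
  · refine key (-v) (A.neg_mem hv) (fun i hi => by simp [hz i hi]) ⟨j, ?_⟩
    simpa using h
  · exact key v hv hz ⟨j, h⟩

/-- A system of rational linear equalities and strict inequalities with a real solution has a
rational solution (in the form needed for supporting hyperplanes). -/
lemma rationalize {e n : ℕ} (q : Fin n → Fin e → ℚ) (S : Set (Fin n)) (a : Fin e → ℝ) (c : ℝ)
    (h : ∀ i, (∑ k, a k * ((q i k : ℚ) : ℝ)) ≤ c ∧
      (i ∈ S ↔ (∑ k, a k * ((q i k : ℚ) : ℝ)) = c)) :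
    ∃ a' : Fin e → ℚ, ∃ c' : ℚ, ∀ i, (∑ k, a' k * q i k) ≤ c' ∧
      (i ∈ S ↔ (∑ k, a' k * q i k) = c') := by
  classical
  -- the rational span of all unknowns
  let gen : Option (Fin e) → ℝ := fun o => o.elim c a
  let W : Submodule ℚ ℝ := Submodule.span ℚ (Set.range gen)
  have : FiniteDimensional ℚ W := FiniteDimensional.span_of_finite ℚ (Set.finite_range gen)
  let b := Module.finBasis ℚ W
  set s := Module.finrank ℚ W
  have hmem : ∀ o, gen o ∈ W := fun o => Submodule.subset_span ⟨o, rfl⟩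
  let M : Option (Fin e) → Fin s → ℚ := fun o j => b.repr ⟨gen o, hmem o⟩ j
  have hM : ∀ o, gen o = ∑ j, ((M o j : ℚ) : ℝ) * (b j : ℝ) := by
    intro o
    have h1 := b.sum_repr ⟨gen o, hmem o⟩
    have h2 := congrArg (Subtype.val) h1
    simp only [AddSubmonoidClass.coe_finsetSum, SetLike.val_smul] at h2
    rw [← h2]
    apply Finset.sum_congr rfl
    intro j _
    rw [Rat.smul_def]
  -- linear forms
  let R : Fin n → Fin s → ℚ := fun i j => M none j - ∑ k, M (some k) j * q i k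
  have hR : ∀ i, c - ∑ k, a k * ((q i k : ℚ) : ℝ) = ∑ j, ((R i j : ℚ) : ℝ) * (b j : ℝ) := by
    intro i
    have hc : c = ∑ j, ((M none j : ℚ) : ℝ) * (b j : ℝ) := hM none
    have ha : ∀ k, a k = ∑ j, ((M (some k) j : ℚ) : ℝ) * (b j : ℝ) := fun k => hM (some k)
    have : ∑ k, a k * ((q i k : ℚ) : ℝ)
        = ∑ j, (∑ k, ((M (some k) j : ℚ) : ℝ) * ((q i k : ℚ) : ℝ)) * (b j : ℝ) := by
      simp only [Finset.sum_mul]
      rw [Finset.sum_comm]
      apply Finset.sum_congr rfl
      intro k _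
      rw [ha k, Finset.sum_mul]
      apply Finset.sum_congr rfl
      intro j _
      ring
    rw [this, hc, ← Finset.sum_sub_distrib]
    apply Finset.sum_congr rfl
    intro j _
    simp only [R]
    push_cast
    ring
  have hzero : ∀ i ∈ S, ∀ j, R i j = 0 := by
    intro i hi
    have h0 : c - ∑ k, a k * ((q i k : ℚ) : ℝ) = 0 := by rw [(h i).2.1 hi]; ring
    rw [hR i] at h0
    have hli := b.linearIndependent
    rw [Fintype.linearIndependent_iff] at hli
    apply hli
    apply Subtype.ext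
    simp only [AddSubmonoidClass.coe_finsetSum, SetLike.val_smul, ZeroMemClass.coe_zero]
    rw [← h0]
    apply Finset.sum_congr rfl
    intro j _
    rw [Rat.smul_def]
  -- open condition
  let O : Set (Fin s → ℝ) := ⋂ i : {i : Fin n // i ∉ S}, {y | 0 < ∑ j, ((R i j : ℚ) : ℝ) * y j}
  have hO : IsOpen O := by
    apply isOpen_iInter_of_finite
    intro i
    apply isOpen_lt continuous_const
    fun_prop
  have hbO : (fun j => (b j : ℝ)) ∈ O := by
    simp only [O, Set.mem_iInter, Set.mem_ofPred_eq]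
    rintro ⟨i, hi⟩
    rw [← hR i]
    have h1 := (h i).1
    have h2 : (∑ k, a k * ((q i k : ℚ) : ℝ)) ≠ c := fun hh => hi ((h i).2.2 hh)
    have := lt_of_le_of_ne h1 h2
    linarith
  have hdense : DenseRange (Pi.map (fun (_ : Fin s) (x : ℚ) => (x : ℝ))) :=
    DenseRange.piMap (fun _ => Rat.denseRange_cast)
  obtain ⟨y, hy⟩ := hdense.exists_mem_open hO ⟨_, hbO⟩
  refine ⟨fun k => ∑ j, M (some k) j * y j, ∑ j, M none j * y j, fun i => ?_⟩
  have hval : (∑ j, M none j * y j) - ∑ k, (∑ j, M (some k) j * y j) * q i k = ∑ j, R i j * y j := by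
    have : ∑ k, (∑ j, M (some k) j * y j) * q i k = ∑ j, (∑ k, M (some k) j * q i k) * y j := by
      simp only [Finset.sum_mul]
      rw [Finset.sum_comm]
      apply Finset.sum_congr rfl
      intro j _
      apply Finset.sum_congr rfl
      intro k _
      ring
    rw [this, ← Finset.sum_sub_distrib]
    apply Finset.sum_congr rfl
    intro j _
    simp only [R]
    ring
  by_cases hi : i ∈ S
  · have h0 : ∑ j, R i j * y j = 0 := by
      apply Finset.sum_eq_zero
      intro j _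
      rw [hzero i hi j, zero_mul]
    rw [h0] at hval
    refine ⟨by linarith, fun _ => by linarith, fun _ => hi⟩
  · have h0 : 0 < ∑ j, R i j * y j := by
      have := hy
      simp only [O, Set.mem_iInter, Set.mem_ofPred_eq] at this
      have h1 := this ⟨i, hi⟩
      simp only [Pi.map_apply] at h1
      exact_mod_cast h1
    refine ⟨by linarith, fun h' => absurd h' hi, fun h' => by linarith⟩

end Pool.Agent.TH512.Poly11
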